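import Pool.Agent.H629R2.EU.Fin2
import Pool.Agent.H629R2.EU.CAL
import Pool.Agent.H629R2.EU.CUT
import Pool.Agent.H629R2.EU.ENE
import Pool.Agent.H629R2.EU.GLO
import Pool.Agent.H629R2.EU.LOB
import Pool.Agent.H629R2.EU.LOC
import Pool.Agent.H629R2.EU.NULP
import Pool.Agent.H629R2.EU.QUA
import Pool.Agent.H629R2.EU.QUB
import Pool.Agent.H629R2.EU.SWA
import Pool.Agent.H629R2.EU.TEL
import Pool.Agent.H629R2.EU.UNI
import Pool.Agent.H629R2.EX.Fin
import Pool.Agent.H629R2.EX.ENE2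
import Pool.Agent.H629R2.EX.LOC2
import Pool.Agent.H629R2.EX.LCQ
import Pool.Agent.H629R2.EX.CAPH
import Pool.Agent.H629R2.EX.POTLb
import Pool.Agent.H629R2.EX.POTM

/-!
# MP_59489a: a Picard type theorem for entire solutions of `u₁₁ u₂₂ = 1`

For an entire solution `u` that is not a quadratic polynomial the image of `(u₁₁, u₁₂)` is dense in
`(0, ∞) × ℝ`, `u₁₁` takes every positive value, `u₁₂` takes every real value, and the image omits
only a set of zero logarithmic capacity.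
-/

set_option autoImplicit false

namespace Pool.Agent.Results.MP_59489a_an.HessianCapacity

open MeasureTheory

/-- Partial derivative in the first variable. -/
noncomputable def dx (f : ℝ × ℝ → ℝ) (p : ℝ × ℝ) : ℝ := fderiv ℝ f p (1, 0)

/-- Partial derivative in the second variable. -/
noncomputable def dy (f : ℝ × ℝ → ℝ) (p : ℝ × ℝ) : ℝ := fderiv ℝ f p (0, 1)

/-- Entire solutions of `u₁₁ u₂₂ = 1`: functions of class `C²` on the plane, convex in each
variable, with `u₁₁ u₂₂ = 1` everywhere. -/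
def EntireSol (u : ℝ × ℝ → ℝ) : Prop :=
  ContDiff ℝ 2 u ∧ (∀ y, ConvexOn ℝ Set.univ fun x => u (x, y)) ∧
    (∀ x, ConvexOn ℝ Set.univ fun y => u (x, y)) ∧ ∀ p, dx (dx u) p * dy (dy u) p = 1

/-- `u` is a polynomial of degree at most two. -/
def IsQuad (u : ℝ × ℝ → ℝ) : Prop :=
  ∃ a b c d e f : ℝ, ∀ x y : ℝ,
    u (x, y) = a * x ^ 2 + b * (x * y) + c * y ^ 2 + d * x + e * y + f

/-- The logarithmic potential `z ↦ ∫ log (1 / |z - w|) dμ(w)` of a measure on the plane. -/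
noncomputable def logPot (μ : Measure (ℝ × ℝ)) (z : ℝ × ℝ) : ℝ :=
  -(1 / 2) * ∫ w, Real.log ((z.1 - w.1) ^ 2 + (z.2 - w.2) ^ 2) ∂μ

/-- Zero logarithmic capacity of a compact set `K`: the only finite measure carried by `K` whose
logarithmic potential is bounded above off `K` is the zero measure. -/
def ZeroCapacity (K : Set (ℝ × ℝ)) : Prop :=
  ∀ μ : Measure (ℝ × ℝ), IsFiniteMeasure μ → μ Kᶜ = 0 →
    (∃ M : ℝ, ∀ z, z ∉ K → logPot μ z ≤ M) → μ = 0

/-- Monotone derivative of a convex function of one variable: its second derivative is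
nonnegative. -/
theorem second_nonneg {g g' : ℝ → ℝ} {g'' t : ℝ} (hc : ConvexOn ℝ Set.univ g)
    (h1 : ∀ x, HasDerivAt g (g' x) x) (h2 : HasDerivAt g' g'' t) : 0 ≤ g'' := by
  have hmono : Monotone g' := by
    have hd : ∀ x, deriv g x = g' x := fun x => (h1 x).deriv
    intro x y hxy
    have := hc.monotoneOn_deriv (fun z _ => (h1 z).differentiableAt) (Set.mem_univ x)
        (Set.mem_univ y) hxy
    rwa [hd, hd] at this
  rw [← h2.deriv]
  exact hmono.deriv_nonneg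

theorem hasDerivAt_x {f : ℝ × ℝ → ℝ} (hf : Differentiable ℝ f) (x y : ℝ) :
    HasDerivAt (fun t => f (t, y)) (dx f (x, y)) x := by
  have h := (hf (x, y)).hasFDerivAt
  have h2 : HasDerivAt (fun t : ℝ => (t, y)) ((1 : ℝ), (0 : ℝ)) x :=
    (hasDerivAt_id x).prodMk (hasDerivAt_const x y)
  exact h.comp_hasDerivAt x h2

theorem hasDerivAt_y {f : ℝ × ℝ → ℝ} (hf : Differentiable ℝ f) (x y : ℝ) :
    HasDerivAt (fun t => f (x, t)) (dy f (x, y)) y := by
  have h := (hf (x, y)).hasFDerivAt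
  have h2 : HasDerivAt (fun t : ℝ => (x, t)) ((0 : ℝ), (1 : ℝ)) y :=
    (hasDerivAt_const y x).prodMk (hasDerivAt_id y)
  exact h.comp_hasDerivAt y h2

theorem entire_conv (u : ℝ × ℝ → ℝ) (hu : EntireSol u) : Pool.Agent.H629R2.EU.EntireSol u := by
  obtain ⟨h2, hcx, hcy, heq⟩ := hu
  have hdu : Differentiable ℝ u := h2.differentiable (by norm_num)
  have hdx : Differentiable ℝ (dx u) := by
    have : ContDiff ℝ 1 (dx u) :=
      (h2.fderiv_right (m := 1) (by norm_num)).clm_apply contDiff_const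
    exact this.differentiable (by norm_num)
  have hdy : Differentiable ℝ (dy u) := by
    have : ContDiff ℝ 1 (dy u) :=
      (h2.fderiv_right (m := 1) (by norm_num)).clm_apply contDiff_const
    exact this.differentiable (by norm_num)
  refine ⟨h2, fun p => ?_, fun p => ?_, heq⟩
  · exact second_nonneg (hcx p.2) (fun x => hasDerivAt_x hdu x p.2)
      (hasDerivAt_x hdx p.1 p.2)
  · exact second_nonneg (hcy p.1) (fun y => hasDerivAt_y hdu p.1 y)
      (hasDerivAt_y hdy p.1 p.2)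

/-- Picard type theorem: for an entire solution which is not a quadratic polynomial, the image of
`(u₁₁, u₁₂)` is dense in `(0, ∞) × ℝ`, `u₁₁` is onto `(0, ∞)`, `u₁₂` is onto `ℝ`, and every compact
subset of `(0, ∞) × ℝ` disjoint from the image has zero logarithmic capacity. -/
theorem result (u : ℝ × ℝ → ℝ) (hu : EntireSol u) (hq : ¬ IsQuad u) :
    (∀ α β ε : ℝ, 0 < α → 0 < ε →
        ∃ p : ℝ × ℝ, |dx (dx u) p - α| < ε ∧ |dx (dy u) p - β| < ε) ∧
      (∀ α : ℝ, 0 < α → ∃ p, dx (dx u) p = α) ∧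
      (∀ β : ℝ, ∃ p, dx (dy u) p = β) ∧
      (∀ K : Set (ℝ × ℝ), IsCompact K → (∀ q ∈ K, 0 < q.1) →
        (∀ p, (dx (dx u) p, dx (dy u) p) ∉ K) → ZeroCapacity K) := by
  have hu' := entire_conv u hu
  have hENE := Pool.Agent.H629R2.EU.ENE_proof Pool.Agent.H629R2.EU.NUL_proof
  have hLOC := Pool.Agent.H629R2.EU.LOC_proof Pool.Agent.H629R2.EU.CUT_proof hENE
    Pool.Agent.H629R2.EU.UNI_proof Pool.Agent.H629R2.EU.UNC_proof
    Pool.Agent.H629R2.EU.CAL_proof Pool.Agent.H629R2.EU.TEL_proof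
  have hLOB := Pool.Agent.H629R2.EU.LOB_proof Pool.Agent.H629R2.EU.CUT_proof hENE
    Pool.Agent.H629R2.EU.UNI_proof Pool.Agent.H629R2.EU.UNC_proof
    Pool.Agent.H629R2.EU.CAL_proof Pool.Agent.H629R2.EU.TELY_proof
  have hmain := Pool.Agent.H629R2.EU.main_thm2 hLOC hLOB Pool.Agent.H629R2.EU.SWA_proof
    Pool.Agent.H629R2.EU.QUA_proof Pool.Agent.H629R2.EU.QUB_proof
    Pool.Agent.H629R2.EU.GLO_proof Pool.Agent.H629R2.EU.GAP_proof u hu'
  rcases hmain with h | ⟨h1, h2, h3⟩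
  · exact absurd h hq
  refine ⟨h1, h2, h3, fun K hK hKpos hom μ hμ hμK hM => ?_⟩
  obtain ⟨M, hM⟩ := hM
  have hENE2 := Pool.Agent.H629R2.EW.ENE2_proof Pool.Agent.H629R2.EU.NUL_proof
  have hLOC2 := Pool.Agent.H629R2.EW.LOC2_proof Pool.Agent.H629R2.EU.CUT_proof hENE2
    Pool.Agent.H629R2.EU.UNI_proof Pool.Agent.H629R2.EU.UNC_proof
    Pool.Agent.H629R2.EU.CAL_proof Pool.Agent.H629R2.EU.TEL_proof
  have hLCQ := Pool.Agent.H629R2.EW.LCQ_proof Pool.Agent.H629R2.EU.QUA_proof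
  have hCAPH := Pool.Agent.H629R2.EW.CAPH_proof hLOC2 hLCQ
  exact Pool.Agent.H629R2.EW.cap_thm hCAPH Pool.Agent.H629R2.EW.POTL_proof
    Pool.Agent.H629R2.EW.POTM_proof u hu' hq (Pool.Agent.H629R2.EU.pos_of_sol u hu') h1 K hK
    hKpos hom μ hμ hμK M hM

end Pool.Agent.Results.MP_59489a_an.HessianCapacity
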