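import Pool.Agent.H629R2.EV.Fin
import Pool.Agent.H629R2.EV.PL
import Pool.Agent.H629R2.EV.POT
import Pool.Agent.H629R2.EV.HOD
import Pool.Agent.H629R2.EV.SYS
import Pool.Agent.H629R2.EV.BIJ
import Pool.Agent.H629R2.EV.IND

/-!
# MP_59489a: an explicit infinite-dimensional family of entire solutions of `u₁₁ u₂₂ = 1`

The solutions are given in hodograph coordinates `(s, t) = (log u₁₁, u₁₂)`: for all finite families
of positive weights `c j` on the curve `ω ^ 2 = ν (1 - ν)`, the formulas `X`, `Y` below define a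
bijection `(s, t) ↦ (x, y)` of the plane, and there is an entire solution with
`(u₁₁, u₁₂) = (e ^ s, t)` at the point `(x, y)`. Different weights give different solutions.
-/

set_option autoImplicit false

namespace Pool.Agent.Results.MP_59489a_an.HodographFamily

/-- Partial derivative in the first variable. -/
noncomputable def dx (f : ℝ × ℝ → ℝ) (p : ℝ × ℝ) : ℝ := fderiv ℝ f p (1, 0)

/-- Partial derivative in the second variable. -/
noncomputable def dy (f : ℝ × ℝ → ℝ) (p : ℝ × ℝ) : ℝ := fderiv ℝ f p (0, 1)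

/-- Entire solutions of `u₁₁ u₂₂ = 1`: functions of class `C²` on the plane with `u₁₁, u₂₂ ≥ 0`
(convexity in each variable) and `u₁₁ u₂₂ = 1` everywhere. -/
def EntireSol (u : ℝ × ℝ → ℝ) : Prop :=
  ContDiff ℝ 2 u ∧ (∀ p, 0 ≤ dx (dx u) p) ∧ (∀ p, 0 ≤ dy (dy u) p) ∧
    ∀ p, dx (dx u) p * dy (dy u) p = 1

/-- `u` is a polynomial of degree at most two. -/
def IsQuad (u : ℝ × ℝ → ℝ) : Prop :=
  ∃ a b c d e f : ℝ, ∀ x y : ℝ,
    u (x, y) = a * x ^ 2 + b * (x * y) + c * y ^ 2 + d * x + e * y + f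

/-- First hodograph coordinate. -/
noncomputable def X (n : ℕ) (c0 c1 : ℝ) (c ν ω : Fin n → ℝ) (s t : ℝ) : ℝ :=
  c0 * t + c1 * (t * Real.exp (-s)) + ∑ j, c j / ω j * Real.exp (-(ν j * s) + ω j * t)

/-- Second hodograph coordinate. -/
noncomputable def Y (n : ℕ) (c0 c1 : ℝ) (c ν ω : Fin n → ℝ) (s t : ℝ) : ℝ :=
  c0 * Real.exp s + c1 * (s + t ^ 2 / 2) +
    ∑ j, c j / (1 - ν j) * Real.exp ((1 - ν j) * s + ω j * t)

/-- Admissible parameters: nodes on the curve `ω ^ 2 = ν (1 - ν)`, `0 < ν < 1`, and nonnegative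
weights, the weight `c1` being positive. -/
def Adm (n : ℕ) (c0 c1 : ℝ) (c ν ω : Fin n → ℝ) : Prop :=
  0 ≤ c0 ∧ 0 < c1 ∧ (∀ j, 0 ≤ c j) ∧ (∀ j, 0 < ν j ∧ ν j < 1) ∧
    ∀ j, ω j ^ 2 = ν j * (1 - ν j)

/-- `u` is an entire solution, not a quadratic polynomial, whose second derivatives are given by
the hodograph formulas. -/
def IsFamilySol (n : ℕ) (c0 c1 : ℝ) (c ν ω : Fin n → ℝ) (u : ℝ × ℝ → ℝ) : Prop :=
  EntireSol u ∧ ¬ IsQuad u ∧
    ∀ s t : ℝ, dx (dx u) (X n c0 c1 c ν ω s t, Y n c0 c1 c ν ω s t) = Real.exp s ∧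
      dx (dy u) (X n c0 c1 c ν ω s t, Y n c0 c1 c ν ω s t) = t

/-- An infinite-dimensional family of entire solutions of `u₁₁ u₂₂ = 1`. -/
theorem result :
    (∀ (n : ℕ) (c0 c1 : ℝ) (c ν ω : Fin n → ℝ), Adm n c0 c1 c ν ω →
      Function.Bijective (fun q : ℝ × ℝ => (X n c0 c1 c ν ω q.1 q.2, Y n c0 c1 c ν ω q.1 q.2)) ∧
      ∃ u, IsFamilySol n c0 c1 c ν ω u) ∧
    (∀ (n : ℕ) (c0 c1 c0' c1' : ℝ) (c c' ν ω : Fin n → ℝ) (u u' : ℝ × ℝ → ℝ),
      Adm n c0 c1 c ν ω → Adm n c0' c1' c' ν ω →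
      Function.Injective (fun j => (ν j, ω j)) →
      IsFamilySol n c0 c1 c ν ω u → IsFamilySol n c0' c1' c' ν ω u' →
      (∀ p, dx (dx u) p = dx (dx u') p) → (∀ p, dx (dy u) p = dx (dy u') p) →
      c0 = c0' ∧ c1 = c1' ∧ c = c') := by
  have hPOT := Pool.Agent.H629R2.EV.POT_proof Pool.Agent.H629R2.EV.PL_proof
  have hHOD := Pool.Agent.H629R2.EV.HOD_proof Pool.Agent.H629R2.EV.DIF_proof
  have hIND := Pool.Agent.H629R2.EV.IND_proof Pool.Agent.H629R2.EV.SYS_proof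
  refine ⟨fun n c0 c1 c ν ω hA => ?_, ?_⟩
  · exact Pool.Agent.H629R2.EV.fam_thm hPOT hHOD
      Pool.Agent.H629R2.EV.SYS_proof Pool.Agent.H629R2.EV.BIJ_proof n c0 c1 c ν ω hA
  · intro n c0 c1 c0' c1' c c' ν ω u u' hA hA' hinj hu hu' e1 e2
    refine Pool.Agent.H629R2.EV.fam_inj hIND n c0 c1 c0' c1' c c' ν ω
      hA hA' hinj (Pool.Agent.H629R2.EV.BIJ_proof n c0 c1 c ν ω hA)
      (dx (dx u)) (dx (dy u)) (fun s t => hu.2.2 s t) (fun s t => ?_)
    rw [e1, e2]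
    exact hu'.2.2 s t

end Pool.Agent.Results.MP_59489a_an.HodographFamily
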