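import Pool.Agent.H629R2.EU.Fin2
import Pool.Agent.H629R2.EU.CAL
import Pool.Agent.H629R2.EU.CUT
import Pool.Agent.H629R2.EU.ENE
import Pool.Agent.H629R2.EU.GLO
import Pool.Agent.H629R2.EU.LOB
import Pool.Agent.H629R2.EU.LOC
import Pool.Agent.H629R2.EU.NULP
import Pool.Agent.H629R2.EU.QUA
import Pool.Agent.H629R2.EU.QUB
import Pool.Agent.H629R2.EU.SWA
import Pool.Agent.H629R2.EU.TEL
import Pool.Agent.H629R2.EU.UNI
import Pool.Agent.H629R2.EX.LCQ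
import Pool.Agent.H629R2.EY.CUTQ
import Pool.Agent.H629R2.EZ.LOCH

/-!
# MP_59489a: entire solutions of `u₁₁ u₂₂ = 1` with `u₁₂ ≤ o(log |x|)` are quadratic

A one-sided bound of `u₁₂` (from above or from below) by `o(log R)` on the part of the square
`|x₁|, |x₂| ≤ R` where `u₁₁` lies in some interval `(a₁, a₂)`, `0 < a₁ < a₂`, along a sequence of
radii `R → ∞`, is enough.
-/

set_option autoImplicit false

namespace Pool.Agent.Results.MP_59489a_an.OneSidedLogGrowth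

/-- Partial derivative in the first variable. -/
noncomputable def dx (f : ℝ × ℝ → ℝ) (p : ℝ × ℝ) : ℝ := fderiv ℝ f p (1, 0)

/-- Partial derivative in the second variable. -/
noncomputable def dy (f : ℝ × ℝ → ℝ) (p : ℝ × ℝ) : ℝ := fderiv ℝ f p (0, 1)

/-- Entire solutions of `u₁₁ u₂₂ = 1`: functions of class `C²` on the plane with `u₁₁, u₂₂ ≥ 0`
(convexity in each variable) and `u₁₁ u₂₂ = 1` everywhere. -/
def EntireSol (u : ℝ × ℝ → ℝ) : Prop :=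
  ContDiff ℝ 2 u ∧ (∀ p, 0 ≤ dx (dx u) p) ∧ (∀ p, 0 ≤ dy (dy u) p) ∧
    ∀ p, dx (dx u) p * dy (dy u) p = 1

/-- `u` is a polynomial of degree at most two. -/
def IsQuad (u : ℝ × ℝ → ℝ) : Prop :=
  ∃ a b c d e f : ℝ, ∀ x y : ℝ,
    u (x, y) = a * x ^ 2 + b * (x * y) + c * y ^ 2 + d * x + e * y + f

/-- Liouville theorem with the one-sided growth `o(log |x|)` of `σ u₁₂`, `σ = ± 1`. -/
theorem result (u : ℝ × ℝ → ℝ) (hu : EntireSol u) (a₁ a₂ σ : ℝ) (h₁ : 0 < a₁) (h₁₂ : a₁ < a₂)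
    (hσ : σ = 1 ∨ σ = -1)
    (hgrowth : ∀ ε R₀ : ℝ, 0 < ε → ∃ R : ℝ, R₀ ≤ R ∧ ∀ p : ℝ × ℝ, |p.1| ≤ R → |p.2| ≤ R →
      a₁ < dx (dx u) p → dx (dx u) p < a₂ → σ * dx (dy u) p ≤ ε * Real.log R) :
    IsQuad u := by
  have hENE := Pool.Agent.H629R2.EU.ENE_proof Pool.Agent.H629R2.EU.NUL_proof
  have hLOC0 := Pool.Agent.H629R2.EU.LOC_proof Pool.Agent.H629R2.EU.CUT_proof hENE
    Pool.Agent.H629R2.EU.UNI_proof Pool.Agent.H629R2.EU.UNC_proof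
    Pool.Agent.H629R2.EU.CAL_proof Pool.Agent.H629R2.EU.TEL_proof
  have hLOB := Pool.Agent.H629R2.EU.LOB_proof Pool.Agent.H629R2.EU.CUT_proof hENE
    Pool.Agent.H629R2.EU.UNI_proof Pool.Agent.H629R2.EU.UNC_proof
    Pool.Agent.H629R2.EU.CAL_proof Pool.Agent.H629R2.EU.TELY_proof
  have hmain := Pool.Agent.H629R2.EU.main_thm2 hLOC0 hLOB Pool.Agent.H629R2.EU.SWA_proof
    Pool.Agent.H629R2.EU.QUA_proof Pool.Agent.H629R2.EU.QUB_proof
    Pool.Agent.H629R2.EU.GLO_proof Pool.Agent.H629R2.EU.GAP_proof u hu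
  rcases hmain with hq | ⟨-, honto, -⟩
  · exact hq
  obtain ⟨z, hz⟩ := honto ((a₁ + a₂) / 2) (by linarith)
  have hz1 : a₁ < dx (dx u) z := by
    have : dx (dx u) z = (a₁ + a₂) / 2 := hz
    linarith
  have hz2 : dx (dx u) z < a₂ := by
    have : dx (dx u) z = (a₁ + a₂) / 2 := hz
    linarith
  have hLOC := Pool.Agent.H629R2.EZ.LOCH_proof Pool.Agent.H629R2.EY.CUTQ_proof hENE
    Pool.Agent.H629R2.EU.UNI_proof Pool.Agent.H629R2.EU.UNC_proof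
    Pool.Agent.H629R2.EU.CAL_proof Pool.Agent.H629R2.EU.TEL_proof u a₁ a₂ σ hu h₁ h₁₂
    hσ hgrowth
  refine Pool.Agent.H629R2.EW.LCQ_proof Pool.Agent.H629R2.EU.QUA_proof u
    {q | a₁ < q.1 ∧ q.1 < a₂} hu ?_ z ⟨hz1, hz2⟩
  intro w hw
  obtain ⟨r, hr, hl⟩ := hLOC w hw.1 hw.2
  refine ⟨r, hr, fun x x' y h1 h2 h3 => ?_⟩
  have h := hl x x' y h1 h2 h3
  exact Prod.ext h.1 h.2

end Pool.Agent.Results.MP_59489a_an.OneSidedLogGrowth
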